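import Mathlib
import Pool.Agent.H.MP_5f9c07_co.G

namespace Pool.Agent.Results.MP_e1005d_co.NotSS

open Pool.Agent.H.MP_5f9c07_co Matroid Set

instance : Fact (Nat.Prime 7) := ⟨by norm_num⟩

def v7 : Fin 19 → Fin 4 → ZMod 7 := ![![1, 0, 0, 0], ![0, 1, 0, 0], ![0, 0, 1, 0], ![0, 0, 0, 1], ![0, 1, 6, 0], ![0, 0, 1, 6], ![0,
  1, 3, 3], ![1, 6, 0, 0], ![1, 0, 6, 0], ![1, 0, 0, 6], ![1, 1, 6, 0], ![1, 0, 6, 1], ![1, 2, 6,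
  6], ![0, 1, 0, 6], ![0, 1, 3, 0], ![0, 1, 6, 1], ![0, 1, 2, 2], ![0, 1, 0, 3], ![0, 0, 1, 5]]

def L7 : List ℕ := [1, 2, 4, 8, 16, 32, 64, 128, 131, 132, 136, 160, 192, 256, 261, 320, 400, 512, 514, 516, 521,
  528, 576, 800, 1024, 1028, 1032, 1041, 1056, 1088, 1282, 2048, 2050, 2052, 2064, 2081, 2112,
  2312, 4096, 4098, 4100, 4104, 4112, 4128, 4161, 8192, 8193, 8196, 8304, 8448, 8453, 8832, 8836,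
  9200, 15360, 15364, 15473, 16384, 16385, 16406, 16456, 16640, 17536, 17608, 17815, 18432, 18454,
  18760, 20992, 21014, 21065, 32768, 32769, 32772, 32792, 32802, 32832, 33024, 33029, 33088,
  34304, 34308, 34329, 34368, 34594, 34944, 34948, 34979, 35008, 35224, 36864, 36868, 36888,
  36898, 36929, 65536, 65537, 65540, 65544, 65568, 65602, 65792, 65797, 66048, 66052, 66057,
  66114, 66336, 66560, 66564, 66568, 66592, 66882, 67584, 67588, 67617, 67650, 67848, 69760,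
  69764, 69768, 69792, 69827, 131072, 131073, 131140, 131200, 131268, 131584, 131652, 132096,
  132164, 133120, 133188, 135424, 135493, 139274, 139915, 146698, 147488, 148640, 149537, 152352,
  163840, 163841, 165376, 166016, 168192, 196624, 197136, 197649, 198672, 201104, 262144, 262145,
  262146, 262160, 262188, 262208, 262272, 262275, 262316, 262336, 262400, 262464, 262544, 263168,
  263185, 263212, 263232, 263426, 264704, 264706, 264720, 264768, 265005, 266240, 266242, 266256,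
  266284, 266305, 385024, 385025, 385280, 392832, 393216, 393217, 393344, 394240, 395776, 397568,
  516222, 524287]

def G7 : List (Fin 4 → ZMod 7) := [![0, 1, 3, 4], ![1, 0, 2, 3], ![1, 2, 0, 3], ![1, 3, 5, 0], ![1, 2, 2, 5], ![1, 2, 5, 5], ![1,
  3, 2, 4], ![1, 1, 3, 4], ![0, 0, 1, 2], ![1, 1, 0, 4], ![1, 1, 4, 0], ![1, 1, 3, 3], ![1, 1, 3,
  6], ![1, 3, 1, 2], ![0, 1, 0, 4], ![1, 2, 1, 3], ![1, 1, 1, 3], ![1, 2, 6, 1], ![1, 0, 3, 1],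
  ![1, 2, 0, 1], ![0, 1, 4, 0], ![1, 3, 3, 1], ![1, 3, 5, 1], ![1, 2, 1, 1], ![1, 2, 3, 6], ![1,
  6, 0, 2], ![1, 2, 3, 0], ![0, 1, 1, 3], ![1, 3, 4, 4], ![1, 4, 5, 3], ![1, 0, 1, 2], ![1, 4, 6,
  5], ![1, 0, 3, 2], ![1, 4, 0, 6], ![1, 3, 3, 2], ![0, 1, 3, 3], ![1, 2, 6, 5], ![1, 2, 1, 0],
  ![1, 3, 2, 5], ![1, 0, 2, 6], ![1, 4, 0, 2], ![1, 2, 5, 0], ![1, 2, 2, 3], ![1, 2, 6, 6], ![0,
  1, 3, 6], ![1, 2, 5, 2], ![0, 1, 3, 1], ![1, 2, 0, 2], ![1, 2, 2, 2], ![1, 2, 1, 2], ![0, 1, 0,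
  1], ![1, 1, 3, 1], ![1, 1, 0, 1], ![1, 1, 1, 1], ![1, 2, 3, 2], ![1, 6, 0, 6], ![0, 1, 1, 1],
  ![1, 2, 4, 5], ![0, 1, 2, 3], ![1, 0, 0, 2], ![1, 2, 4, 0], ![1, 4, 1, 2], ![1, 1, 2, 3], ![1,
  1, 2, 0], ![0, 0, 0, 1], ![1, 2, 4, 3], ![1, 0, 0, 6], ![1, 4, 1, 0], ![1, 2, 4, 1], ![1, 0, 0,
  1], ![0, 1, 2, 0], ![1, 2, 5, 3], ![0, 1, 4, 3], ![1, 3, 0, 4], ![1, 2, 2, 0], ![1, 0, 2, 2],
  ![1, 4, 6, 2], ![1, 2, 1, 6], ![0, 1, 0, 6], ![1, 3, 1, 5], ![1, 3, 4, 1], ![1, 6, 0, 1], ![0,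
  1, 1, 0], ![1, 2, 3, 1], ![1, 0, 1, 1], ![1, 1, 4, 3], ![1, 1, 0, 6], ![0, 0, 1, 1], ![1, 1, 5,
  4], ![1, 1, 1, 0], ![1, 3, 5, 2], ![1, 2, 0, 5], ![1, 6, 6, 0], ![1, 0, 4, 4], ![0, 1, 5, 4],
  ![1, 4, 2, 3], ![0, 1, 4, 6], ![1, 3, 0, 2], ![1, 2, 6, 0], ![1, 4, 6, 6], ![1, 0, 2, 5], ![1,
  2, 1, 5], ![0, 1, 0, 3], ![1, 2, 5, 1], ![1, 5, 0, 1], ![0, 1, 3, 0], ![1, 0, 6, 1], ![1, 3, 1,
  1], ![1, 3, 4, 5], ![1, 6, 0, 4], ![1, 4, 5, 0], ![1, 2, 3, 3], ![1, 0, 1, 6], ![1, 3, 5, 4],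
  ![1, 2, 0, 6], ![0, 1, 5, 5], ![1, 0, 4, 3], ![1, 5, 1, 0], ![1, 1, 4, 6], ![1, 1, 0, 3], ![1,
  1, 3, 0], ![1, 1, 5, 5], ![0, 0, 1, 6], ![1, 5, 2, 3], ![0, 1, 5, 2], ![1, 2, 0, 4], ![1, 1, 5,
  2], ![1, 1, 0, 2], ![1, 4, 3, 1], ![1, 4, 0, 1], ![1, 2, 3, 4], ![1, 6, 0, 5], ![1, 2, 5, 4],
  ![1, 3, 0, 6], ![1, 3, 1, 6], ![0, 1, 0, 2], ![1, 0, 2, 0], ![0, 0, 1, 0], ![1, 0, 1, 0], ![1,
  2, 4, 4], ![1, 1, 2, 2], ![0, 1, 2, 2], ![1, 4, 1, 1], ![1, 2, 6, 4], ![0, 1, 3, 2], ![1, 4, 5,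
  1], ![1, 1, 3, 2], ![1, 5, 1, 3], ![1, 2, 2, 4], ![1, 4, 4, 1], ![0, 1, 1, 2], ![1, 6, 6, 5],
  ![1, 1, 1, 2], ![1, 2, 6, 3], ![0, 1, 3, 5], ![1, 0, 4, 2], ![1, 3, 3, 5], ![1, 2, 0, 0], ![1,
  2, 5, 6], ![1, 1, 3, 5], ![0, 0, 1, 4], ![1, 1, 0, 0], ![1, 1, 6, 3], ![1, 3, 1, 4], ![1, 6, 1,
  4], ![1, 1, 1, 4], ![1, 2, 3, 5], ![0, 1, 1, 4], ![1, 6, 0, 0], ![1, 3, 4, 2], ![1, 0, 1, 4],
  ![1, 3, 2, 1], ![1, 0, 2, 1], ![1, 2, 2, 1], ![1, 5, 2, 1], ![0, 1, 0, 0], ![1, 4, 6, 3], ![1,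
  0, 3, 5], ![1, 5, 5, 6], ![1, 3, 0, 0], ![0, 1, 6, 3], ![1, 2, 4, 2], ![0, 1, 2, 1], ![1, 4, 1,
  4], ![1, 1, 2, 1], ![1, 3, 5, 6], ![0, 1, 4, 2], ![1, 1, 4, 2], ![1, 5, 6, 3], ![1, 4, 2, 1],
  ![1, 2, 1, 4], ![1, 0, 0, 0], ![0, 0, 0, 0]]

theorem result : ∃ M : Matroid (Fin 19), Tang (ZMod 7) 1 M ∧ (∃ H, ModHyp M H) ∧ ¬ SS M := by
  obtain ⟨M, hE, h⟩ := vm (ZMod 7) v7 univ
  have c : ∀ s ∈ L7, ∃ g, msk v7 g = s := fun s hs =>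
    (List.mem_map.1 ((by decide +kernel : G7.map (msk v7) = L7) ▸ hs)).imp fun _ => And.right
  have s := h.simp' c (by decide +kernel)
  obtain ⟨t, T⟩ := h.tg hE s (nm4 (by decide +kernel) (by decide +kernel) (by decide +kernel)
    (by decide +kernel)) (clo rfl (by decide +kernel)) c (by decide +kernel)
  exact ⟨M, t, h.mh hE s T ![1, 0, 0, 0] 0 (by decide +kernel) (z := 516222) (by decide +kernel)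
    (by decide +kernel), h.nss hE s c T (by decide +kernel)⟩

end Pool.Agent.Results.MP_e1005d_co.NotSS
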